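import Mathlib
import Pool.Agent.Helper190.KHyp

open Pool.Agent.Helper190.KHyp

namespace Pool.Agent.Results.MP_f019fe_gt.ExoticC

/-- **Answer to Q2.** For every `n ≥ 1` and every `m > n` there is an exotic quasi-isometric
embedding of complex hyperbolic `n`-space into complex hyperbolic `m`-space. -/
theorem result : ∀ n m : ℕ, 1 ≤ n → n < m →
    ∃ f : HBall ℂ n → HBall ℂ m, IsQIEmbedding f ∧ IsExotic f :=
  fun n m hn hnm => exists_exotic ℂ n m hn hnm

end Pool.Agent.Results.MP_f019fe_gt.ExoticC
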